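import Pool.Agent.PureEq.Inv

open FirstOrder FirstOrder.Language FirstOrder.Language.Structure

namespace Pool.Agent.PureEq

/-- relation symbols: `(κ, c, d, β)` -/
abbrev Sym : Type := Fin 3 × Fin 4 × Fin 4 × Bool

/-- the relation symbols (all binary) -/
inductive Rels : ℕ → Type
  | r (s : Sym) : Rels 2

/-- the finite relational signature of the example -/
abbrev Lc : FirstOrder.Language.{0, 0} := ⟨fun _ => Empty, Rels⟩

/-- The data of a cover: a set `Z` with a map `s : Z → ℕ`, a symmetric relation `E` on `Z` and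
an antisymmetric sign function `c` on the pairs in `E`. -/
structure Cover where
  Z : Type
  s : Z → ℕ
  E : Z → Z → Prop
  c : Z → Z → Bool
  symm : ∀ x y, E x y → E y x
  anti : ∀ x y, E x y → c y x = !(c x y)

namespace Cover

variable (X : Cover)

/-- the points of the covering structure: triples `(z, z', ε)` with `E z z'` -/
structure Pt where
  p : X.Z
  q : X.Z
  e : Bool
  h : X.E p q

variable {X}

theorem Pt.ext' {x y : X.Pt} (h1 : x.p = y.p) (h2 : x.q = y.q) (h3 : x.e = y.e) : x = y := by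
  cases x; cases y; cases h1; cases h2; cases h3; rfl

/-- the successor on the directed 4-cycle `(z,z',ε) ↦ (z',z,ε + c(z,z'))` -/
def nx (x : X.Pt) : X.Pt := ⟨x.q, x.p, xor x.e (X.c x.p x.q), X.symm _ _ x.h⟩

@[simp] theorem nx_p (x : X.Pt) : (nx x).p = x.q := rfl
@[simp] theorem nx_q (x : X.Pt) : (nx x).q = x.p := rfl
@[simp] theorem nx_e (x : X.Pt) : (nx x).e = xor x.e (X.c x.p x.q) := rfl

/-- the basic equivalence relations: equality, same `p`, same `s ∘ p` -/
def Eq3 (κ : Fin 3) (x y : X.Pt) : Prop :=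
  if κ = 0 then x = y else if κ = 1 then x.p = y.p else X.s x.p = X.s y.p

@[simp] theorem Eq3_zero (x y : X.Pt) : Eq3 0 x y ↔ x = y := by simp [Eq3]
@[simp] theorem Eq3_one (x y : X.Pt) : Eq3 1 x y ↔ x.p = y.p := by simp [Eq3]
@[simp] theorem Eq3_two (x y : X.Pt) : Eq3 2 x y ↔ X.s x.p = X.s y.p := by simp [Eq3]

/-- interpretation of the relation symbols -/
def rel (s : Sym) (x y : X.Pt) : Prop :=
  (Eq3 s.1 (nx^[(s.2.1 : ℕ)] x) (nx^[(s.2.2.1 : ℕ)] y)) ↔ s.2.2.2 = true

instance ptStructure : Lc.Structure X.Pt where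
  funMap := fun f => f.elim
  RelMap := fun {_} r x => match r, x with
    | .r s, x => rel s (x 0) (x 1)

theorem relMap_r (s : Sym) (x : Fin 2 → X.Pt) :
    RelMap (L := Lc) (Rels.r s : Lc.Relations 2) x ↔ rel s (x 0) (x 1) := Iff.rfl

theorem nx2 (x : X.Pt) : nx (nx x) = ⟨x.p, x.q, !x.e, x.h⟩ := by
  apply Pt.ext' <;> simp [X.anti _ _ x.h]

theorem nx2_ne (x : X.Pt) : nx (nx x) ≠ x := by
  intro h
  have := congrArg Pt.e h
  rw [nx2] at this
  simp at this

theorem nx4 (x : X.Pt) : nx (nx (nx (nx x))) = x := by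
  rw [nx2, nx2]
  apply Pt.ext' <;> simp

theorem nx4' (x : X.Pt) : nx^[4] x = x := nx4 x

theorem nx_iter_mod (n : ℕ) (x : X.Pt) : nx^[n] x = nx^[n % 4] x := by
  conv_lhs => rw [← Nat.mod_add_div n 4, Function.iterate_add_apply, Function.iterate_mul]
  congr 1
  have : (nx^[4] : X.Pt → X.Pt) = id := funext nx4'
  rw [this, Function.iterate_id]; rfl

theorem same (x y : X.Pt) (hp : x.p = y.p) (hq : x.q = y.q) : x = y ∨ x = nx (nx y) := by
  rw [nx2]
  cases x; cases y
  simp only at hp hq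
  subst hp; subst hq
  rename_i a b c d e f
  cases e <;> cases c <;> simp

/-- `D`-equality of tuples: all basic relations between iterates agree. -/
def DEq {Y : Cover} {ι : Type*} (v : ι → X.Pt) (w : ι → Y.Pt) : Prop :=
  ∀ (κ : Fin 3) (i j : ι) (c d : ℕ),
    Eq3 κ (nx^[c] (v i)) (nx^[d] (v j)) ↔ Eq3 κ (nx^[c] (w i)) (nx^[d] (w j))

theorem dEq_of_rel {Y : Cover} {ι : Type*} (v : ι → X.Pt) (w : ι → Y.Pt)
    (h : ∀ (s : Sym) i j, rel s (v i) (v j) → rel s (w i) (w j)) : DEq v w := by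
  intro κ i j c d
  have h1 := h (κ, ⟨c % 4, Nat.mod_lt _ (by norm_num)⟩, ⟨d % 4, Nat.mod_lt _ (by norm_num)⟩, true)
    i j
  have h2 := h (κ, ⟨c % 4, Nat.mod_lt _ (by norm_num)⟩, ⟨d % 4, Nat.mod_lt _ (by norm_num)⟩, false)
    i j
  simp only [rel, iff_true, Bool.false_eq_true, iff_false] at h1 h2
  rw [nx_iter_mod c, nx_iter_mod d (v j), nx_iter_mod c (w i), nx_iter_mod d (w j)]
  exact ⟨h1, fun h' => by_contra fun h'' => h2 h'' h'⟩

theorem rel_of_dEq {Y : Cover} {ι : Type*} {v : ι → X.Pt} {w : ι → Y.Pt} (h : DEq v w) (s : Sym)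
    (i j : ι) : rel s (v i) (v j) ↔ rel s (w i) (w j) := by
  unfold rel
  rw [h]

/-- a map that commutes with `nx` and preserves and reflects the three equivalence relations is
an embedding -/
def mkEmb {Y : Cover} (f : X.Pt → Y.Pt) (h : DEq (fun x : X.Pt => x) f) : X.Pt ↪[Lc] Y.Pt where
  toFun := f
  inj' := by
    intro x y hxy
    have := h 0 x y 0 0
    simp only [Eq3_zero, Function.iterate_zero, id] at this
    exact this.2 hxy
  map_fun' := fun f => f.elim
  map_rel' := by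
    intro n r x
    cases r with
    | r s =>
      show rel s (f (x 0)) (f (x 1)) ↔ rel s (x 0) (x 1)
      exact (rel_of_dEq h s (x 0) (x 1)).symm

theorem dEq_of_comm {Y : Cover} (f : X.Pt → Y.Pt) (hn : ∀ x, f (nx x) = nx (f x))
    (h0 : Function.Injective f) (h1 : ∀ x y, (f x).p = (f y).p ↔ x.p = y.p)
    (h2 : ∀ x y, Y.s (f x).p = Y.s (f y).p ↔ X.s x.p = X.s y.p) :
    DEq (fun x : X.Pt => x) f := by
  have hc : ∀ (c : ℕ) x, nx^[c] (f x) = f (nx^[c] x) := by
    intro c x
    exact (Function.Semiconj.iterate_right (f := f) (ga := nx) (gb := nx) hn c x).symm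
  intro κ i j c d
  show Eq3 κ (nx^[c] i) (nx^[d] j) ↔ _
  rw [hc, hc]
  fin_cases κ
  · simpa using h0.eq_iff.symm
  · simpa using (h1 _ _).symm
  · simpa using (h2 _ _).symm

end Cover

end Pool.Agent.PureEq
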