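import Mathlib

/-!
# First-order interpretations over `(ℕ;=)`, model companions, model-complete cores

Definitions used in the hand-in for `MP_e44c77_lc`.
-/

open FirstOrder FirstOrder.Language FirstOrder.Language.Structure

namespace Pool.Agent.PureEq

universe u

attribute [instance] FirstOrder.Language.emptyStructure

/-- `Interpretable C L A`: the `L`-structure `A` has a first-order interpretation over `(ℕ;=)`
whose defining formulas may use parameters from `C ⊆ ℕ`.

There are `d ≥ 1`, a definable set `D ⊆ ℕ^d` and a surjection `π : D → A` such that the kernel of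
`π` (the equivalence relation `E` on `D`) is definable and the preimages of the graphs of all
function symbols and of all relation symbols of `A` are definable; so `A ≅ D/E`. -/
def Interpretable (C : Set ℕ) (L : FirstOrder.Language.{0, 0}) (A : Type) [L.Structure A] : Prop :=
  ∃ (d : ℕ) (D : Set (Fin d → ℕ)) (π : D → A), 0 < d ∧
    C.Definable Language.empty D ∧
    Function.Surjective π ∧
    C.Definable Language.empty {x : Fin 2 × Fin d → ℕ |
      ∃ h : ∀ i, (fun j => x (i, j)) ∈ D, π ⟨_, h 0⟩ = π ⟨_, h 1⟩} ∧
    (∀ (n : ℕ) (f : L.Functions n), C.Definable Language.empty {x : Fin (n + 1) × Fin d → ℕ |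
      ∃ h : ∀ i, (fun j => x (i, j)) ∈ D,
        funMap f (fun i : Fin n => π ⟨_, h i.castSucc⟩) = π ⟨_, h (Fin.last n)⟩}) ∧
    (∀ (n : ℕ) (R : L.Relations n), C.Definable Language.empty {x : Fin n × Fin d → ℕ |
      ∃ h : ∀ i, (fun j => x (i, j)) ∈ D, RelMap R (fun i : Fin n => π ⟨_, h i⟩)})

/-- The class `𝒦₌` of structures with a (parameter-free) first-order interpretation over
`(ℕ;=)`. -/
def InKEq (L : FirstOrder.Language.{0, 0}) (A : Type) [L.Structure A] : Prop := Interpretable ∅ L A

/-- A theory is model-complete if every embedding between models of `T` is elementary. -/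
def ModelComplete (L : FirstOrder.Language.{0, 0}) (T : L.Theory) : Prop :=
  ∀ (M N : Type u) [L.Structure M] [L.Structure N], M ⊨ T → N ⊨ T →
    ∀ (f : M ↪[L] N) (n : ℕ) (φ : L.Formula (Fin n)) (v : Fin n → M),
      φ.Realize (f ∘ v) ↔ φ.Realize v

/-- `T'` is a model companion of `T`. -/
def IsModelCompanion (L : FirstOrder.Language.{0, 0}) (T T' : L.Theory) : Prop :=
  ModelComplete.{u} L T' ∧
  (∀ (M : Type u) [L.Structure M], M ⊨ T →
    ∃ (N : Type u) (_ : L.Structure N), N ⊨ T' ∧ Nonempty (M ↪[L] N)) ∧
  (∀ (N : Type u) [L.Structure N], N ⊨ T' →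
    ∃ (M : Type u) (_ : L.Structure M), M ⊨ T ∧ Nonempty (N ↪[L] M))

/-- The automorphism group of `B` has finitely many orbits on `n`-tuples for every `n`; for
countable `B` this means that `B` is `ω`-categorical (Engeler, Ryll-Nardzewski, Svenonius). -/
def Oligomorphic (L : FirstOrder.Language.{0, 0}) (B : Type) [L.Structure B] : Prop :=
  ∀ n : ℕ, ∃ S : Set (Fin n → B), S.Finite ∧ ∀ v : Fin n → B, ∃ g : B ≃[L] B, g ∘ v ∈ S

/-- `B` is a model-complete core: it is countable and `ω`-categorical, and every endomorphism of
`B` preserves all first-order formulas. -/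
def IsModelCompleteCore (L : FirstOrder.Language.{0, 0}) (B : Type) [L.Structure B] : Prop :=
  Countable B ∧ Oligomorphic L B ∧
    ∀ (f : B →[L] B) (n : ℕ) (φ : L.Formula (Fin n)) (v : Fin n → B),
      φ.Realize v → φ.Realize (f ∘ v)

/-- `B` is the model-complete core of `A`: it is a model-complete core that is homomorphically
equivalent to `A`. -/
def IsModelCompleteCoreOf (L : FirstOrder.Language.{0, 0}) (A B : Type) [L.Structure A] [L.Structure B] :
    Prop :=
  IsModelCompleteCore L B ∧ Nonempty (A →[L] B) ∧ Nonempty (B →[L] A)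

end Pool.Agent.PureEq
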