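import Pool.Agent.PureEq.MC

open FirstOrder FirstOrder.Language FirstOrder.Language.Structure

namespace Pool.Agent.PureEq

open Cover

/-- general embeddings of covers -/
theorem exists_emb {X Y : Cover} (F : X.Z → Y.Z) (hF : Function.Injective F)
    (FE : ∀ z z', X.E z z' → Y.E (F z) (F z')) (hs : ∀ z, Y.s (F z) = X.s z)
    (δ : X.Z → X.Z → Bool)
    (hδ : ∀ z z', X.E z z' → xor (δ z z') (Y.c (F z) (F z')) = xor (δ z' z) (X.c z z')) :
    Nonempty (X.Pt ↪[Lc] Y.Pt) := by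
  let g : X.Pt → Y.Pt := fun x => ⟨F x.p, F x.q, xor x.e (δ x.p x.q), FE _ _ x.h⟩
  have hn : ∀ x, g (nx x) = nx (g x) := by
    intro x
    apply Pt.ext'
    · rfl
    · rfl
    · have := hδ x.p x.q x.h
      show xor (xor x.e (X.c x.p x.q)) (δ x.q x.p) =
        xor (xor x.e (δ x.p x.q)) (Y.c (F x.p) (F x.q))
      rw [Bool.xor_assoc, Bool.xor_assoc, this, Bool.xor_comm (δ x.q x.p)]
  have hinj : Function.Injective g := by
    intro x y hxy
    have h1 : F x.p = F y.p := congrArg Pt.p hxy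
    have h2 : F x.q = F y.q := congrArg Pt.q hxy
    have h3 : xor x.e (δ x.p x.q) = xor y.e (δ y.p y.q) := congrArg Pt.e hxy
    have h1' := hF h1
    have h2' := hF h2
    rw [h1', h2'] at h3
    apply Pt.ext' h1' h2'
    simpa using h3
  have hD : DEq (fun x : X.Pt => x) g := by
    refine dEq_of_comm g hn hinj (fun x y => hF.eq_iff) (fun x y => ?_)
    show Y.s (F x.p) = Y.s (F y.p) ↔ _
    rw [hs, hs]
  exact ⟨mkEmb g hD⟩

theorem emb_BA : Nonempty (XB.Pt ↪[Lc] XA.Pt) := by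
  refine exists_emb (X := XB) (Y := XA)
    (fun z => (z.1, z.2.1, z.2.2, decide (z.1 < z.2.1))) ?_ ?_ (fun z => rfl)
    (fun _ _ => false) ?_
  · rintro ⟨a, b, k⟩ ⟨a', b', k'⟩ h
    have h' : ((a, b, k, decide (a < b)) : ℕ × ℕ × ℕ × Bool) = (a', b', k', decide (a' < b')) := h
    simp only [Prod.mk.injEq] at h'
    obtain ⟨h1, h2, h3, -⟩ := h'
    subst h1; subst h2; subst h3; rfl
  · rintro z z' h
    exact ⟨h.1, h.2.1, h.2.2, XB.anti z z' h⟩
  · intro z z' h
    rfl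

theorem emb_AB : Nonempty (XA.Pt ↪[Lc] XB.Pt) := by
  refine exists_emb (X := XA) (Y := XB)
    (fun z => (z.1, z.2.1, 2 * z.2.2.1 + (if z.2.2.2 then 1 else 0))) ?_ ?_ (fun z => rfl)
    (fun z z' => if z.1 < z.2.1 then false else
      xor z.2.2.2 (decide (z.1 < z.2.1))) ?_
  · rintro ⟨a, b, k, j⟩ ⟨a', b', k', j'⟩ h
    have h' : ((a, b, 2 * k + (if j then 1 else 0)) : ℕ × ℕ × ℕ) =
      (a', b', 2 * k' + (if j' then 1 else 0)) := h
    simp only [Prod.mk.injEq] at h'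
    obtain ⟨h1, h2, h3⟩ := h'
    subst h1; subst h2
    have : k = k' ∧ j = j' := by
      cases j <;> cases j' <;> simp at h3 ⊢ <;> omega
    rw [this.1, this.2]
  · rintro z z' h
    exact ⟨h.1, h.2.1, h.2.2.1⟩
  · rintro ⟨a, b, k, j⟩ ⟨a', b', k', j'⟩ ⟨h1, h2, h3, h4⟩
    simp only at h1 h2 h3 h4
    subst h1; subst h2; subst h4
    show xor (if b' < a' then false else xor j (decide (b' < a'))) (decide (b' < a')) =
      xor (if a' < b' then false else xor (!j) (decide (a' < b'))) j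
    rcases lt_or_gt_of_ne h3 with l | l
    · simp [l, not_lt.2 l.le]
    · simp [l, not_lt.2 l.le]

/-- the action of `Sym(ℕ)` on `A` -/
def act (σ : Equiv.Perm ℕ) (x : XA.Pt) : XA.Pt where
  p := (σ x.p.1, σ x.p.2.1, σ x.p.2.2.1, x.p.2.2.2)
  q := (σ x.q.1, σ x.q.2.1, σ x.q.2.2.1, x.q.2.2.2)
  e := x.e
  h := ⟨congrArg σ x.h.1, congrArg σ x.h.2.1, fun h => x.h.2.2.1 (σ.injective h), x.h.2.2.2⟩

theorem actZ (σ : Equiv.Perm ℕ) (z z' : ℕ × ℕ × ℕ × Bool)
    (h : ((σ z.1, σ z.2.1, σ z.2.2.1, z.2.2.2) : ℕ × ℕ × ℕ × Bool) =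
      (σ z'.1, σ z'.2.1, σ z'.2.2.1, z'.2.2.2)) : z = z' := by
  simp only [Prod.mk.injEq, EmbeddingLike.apply_eq_iff_eq] at h
  exact Prod.ext h.1 (Prod.ext h.2.1 (Prod.ext h.2.2.1 h.2.2.2))

theorem act_dEq (σ : Equiv.Perm ℕ) : DEq (fun x : XA.Pt => x) (act σ) := by
  refine dEq_of_comm (act σ) (fun x => rfl) ?_ ?_ ?_
  · intro x y h
    have h1 : (act σ x).p = (act σ y).p := congrArg Pt.p h
    have h2 : (act σ x).q = (act σ y).q := congrArg Pt.q h
    have h3 : (act σ x).e = (act σ y).e := congrArg Pt.e h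
    exact Pt.ext' (actZ σ _ _ h1) (actZ σ _ _ h2) h3
  · intro x y
    constructor
    · intro h1
      exact actZ σ _ _ h1
    · intro h
      exact congrArg (fun z : ℕ × ℕ × ℕ × Bool => (σ z.1, σ z.2.1, σ z.2.2.1, z.2.2.2)) h
  · intro x y
    exact σ.injective.eq_iff

/-- the domain of the interpretation of `A` -/
def DA : Set (Fin 8 → ℕ) := {x | x 0 ≠ x 1}

/-- the interpretation of `A` -/
def piA (x : DA) : XA.Pt where
  p := (x.1 0, x.1 1, x.1 2, decide (x.1 4 = x.1 5))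
  q := (x.1 1, x.1 0, x.1 3, !decide (x.1 4 = x.1 5))
  e := decide (x.1 6 = x.1 7)
  h := ⟨rfl, rfl, x.2, rfl⟩

theorem DA_inv (σ : Equiv.Perm ℕ) (x : Fin 8 → ℕ) (h : x ∈ DA) : σ ∘ x ∈ DA :=
  fun h' => h (σ.injective h')

theorem piA_act (σ : Equiv.Perm ℕ) (x : DA) : piA ⟨σ ∘ x.1, DA_inv σ x.1 x.2⟩ = act σ (piA x) := by
  apply Pt.ext' <;> simp [piA, act]

theorem piA_surj : Function.Surjective piA := by
  rintro ⟨⟨a, b, k, j⟩, ⟨a', b', k', j'⟩, e, h⟩
  obtain ⟨h1, h2, h3, h4⟩ := h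
  simp only at h1 h2 h3 h4
  subst h1; subst h2; subst h4
  refine ⟨⟨![b', a', k, k', 0, if j then 0 else 1, 0, if e then 0 else 1], h3⟩, ?_⟩
  apply Pt.ext'
  · cases j <;> rfl
  · cases j <;> rfl
  · cases e <;> rfl

theorem interpretable_A : InKEq Lc XA.Pt := by
  refine ⟨8, DA, piA, by norm_num, ?_, piA_surj, ?_, ?_, ?_⟩
  · exact definable_of_invariant _ (fun σ x h => DA_inv σ x h)
  · refine definable_of_invariant _ ?_
    rintro σ x ⟨h, hx⟩
    refine ⟨fun i => DA_inv σ _ (h i), ?_⟩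
    have h1 := piA_act σ ⟨_, h 0⟩
    have h2 := piA_act σ ⟨_, h 1⟩
    rw [hx] at h1
    exact h1.trans h2.symm
  · intro n f
    exact f.elim
  · intro n R
    refine definable_of_invariant _ ?_
    rintro σ x ⟨h, hx⟩
    refine ⟨fun i => DA_inv σ _ (h i), ?_⟩
    have e : (fun i : Fin n => piA ⟨_, DA_inv σ _ (h i)⟩) =
        mkEmb (act σ) (act_dEq σ) ∘ (fun i : Fin n => piA ⟨_, h i⟩) := by
      funext i
      exact piA_act σ ⟨_, h i⟩
    have h3 := ((mkEmb (act σ) (act_dEq σ)).map_rel R (fun i : Fin n => piA ⟨_, h i⟩)).2 hx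
    rw [← e] at h3
    exact h3

instance : Nonempty XA.Pt :=
  ⟨⟨(0, 1, 0, true), (1, 0, 0, false), true, rfl, rfl, (by decide : (0 : ℕ) ≠ 1), rfl⟩⟩

/-- the point of `B` above two opposite elements of `Z` -/
def mkB (a b k l : ℕ) (e : Bool) (h : a ≠ b) : XB.Pt := ⟨(a, b, k), (b, a, l), e, rfl, rfl, h⟩

instance : Nonempty XB.Pt := ⟨mkB 0 1 0 0 true (by norm_num)⟩

theorem not_interpretable_B (C : Set ℕ) (hC : C.Finite) : ¬ Interpretable C Lc XB.Pt := by
  classical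
  rintro ⟨d, D, π, -, hD, hsurj, hker, -, hrel⟩
  -- the action
  have hDinv : ∀ σ : Equiv.Perm ℕ, (∀ c ∈ C, σ c = c) → ∀ x ∈ D, σ ∘ x ∈ D := by
    intro σ hσ x hx
    exact invariant_of_definable hD σ hσ x hx
  have hkinv : ∀ (σ : Equiv.Perm ℕ) (hσ : ∀ c ∈ C, σ c = c) (x y : D), π x = π y →
      π ⟨σ ∘ x.1, hDinv σ hσ x.1 x.2⟩ = π ⟨σ ∘ y.1, hDinv σ hσ y.1 y.2⟩ := by
    intro σ hσ x y hxy
    have := invariant_of_definable hker σ hσ (fun i => (![x.1, y.1] i.1) i.2) ⟨by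
      intro i; fin_cases i
      · exact x.2
      · exact y.2, hxy⟩
    obtain ⟨h, h'⟩ := this
    exact h'
  have hrinv : ∀ (σ : Equiv.Perm ℕ) (hσ : ∀ c ∈ C, σ c = c) (x y : D) (s : Sym),
      rel s (π x) (π y) →
      rel s (π ⟨σ ∘ x.1, hDinv σ hσ x.1 x.2⟩) (π ⟨σ ∘ y.1, hDinv σ hσ y.1 y.2⟩) := by
    intro σ hσ x y s hxy
    have := invariant_of_definable (hrel 2 (Rels.r s)) σ hσ
      (fun i => (![x.1, y.1] i.1) i.2) ⟨by
      intro i; fin_cases i
      · exact x.2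
      · exact y.2, hxy⟩
    obtain ⟨h, h'⟩ := this
    exact h'
  -- a point moved to another fibre by a transposition
  have hex : ∃ (i j : ℕ) (_ : i ∉ C) (_ : j ∉ C) (x : D) (hx : Equiv.swap i j ∘ x.1 ∈ D),
      (π ⟨Equiv.swap i j ∘ x.1, hx⟩).p.1 ≠ (π x).p.1 := by
    by_contra hcon
    push Not at hcon
    let f : (Fin d → ℕ) → ℕ := fun x => if h : x ∈ D then (π ⟨x, h⟩).p.1 else 0
    have hfix : ∀ i j, i ∉ C → j ∉ C → ∀ c ∈ C, Equiv.swap i j c = c := by
      intro i j hi hj c hc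
      exact Equiv.swap_apply_of_ne_of_ne (fun h => hi (h ▸ hc)) (fun h => hj (h ▸ hc))
    have hfin := finite_image C hC D
      (fun i j hi hj x hx => hDinv _ (hfix i j hi hj) x hx) f (by
        intro i j hi hj x hx
        have hx' := hDinv _ (hfix i j hi hj) x hx
        simp only [f, dif_pos hx, dif_pos hx']
        exact hcon i j hi hj ⟨x, hx⟩ hx')
    have : (f '' D) = Set.univ := by
      rw [Set.eq_univ_iff_forall]
      intro a
      obtain ⟨x, hx⟩ := hsurj (mkB a (a + 1) 0 0 true (by omega))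
      refine ⟨x.1, x.2, ?_⟩
      simp only [f, dif_pos x.2]
      have : (π ⟨x.1, x.2⟩).p = (a, a + 1, 0) := congrArg Pt.p hx
      rw [this]
    rw [this] at hfin
    exact Set.infinite_univ hfin
  obtain ⟨i, j, hi, hj, x, hx, hne⟩ := hex
  have hfix : ∀ c ∈ C, Equiv.swap i j c = c := by
    intro c hc
    exact Equiv.swap_apply_of_ne_of_ne (fun h => hi (h ▸ hc)) (fun h => hj (h ▸ hc))
  -- the induced involution
  let sec : XB.Pt → D := fun b => (hsurj b).choose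
  have hsec : ∀ b, π (sec b) = b := fun b => (hsurj b).choose_spec
  let g : XB.Pt → XB.Pt := fun b => π ⟨Equiv.swap i j ∘ (sec b).1, hDinv _ hfix _ (sec b).2⟩
  have hg : ∀ y : D, g (π y) = π ⟨Equiv.swap i j ∘ y.1, hDinv _ hfix _ y.2⟩ := by
    intro y
    exact hkinv _ hfix _ _ (hsec _)
  have hgg : ∀ b, g (g b) = b := by
    intro b
    have h1 : g b = π ⟨Equiv.swap i j ∘ (sec b).1, hDinv _ hfix _ (sec b).2⟩ := rfl
    rw [h1, hg]
    have : (⟨Equiv.swap i j ∘ (Equiv.swap i j ∘ (sec b).1), hDinv _ hfix _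
        (hDinv _ hfix _ (sec b).2)⟩ : D) = sec b := by
      apply Subtype.ext
      funext k
      simp
    rw [this]
    exact hsec b
  have hgD : DEq (fun x : XB.Pt => x) g := by
    apply dEq_of_rel
    intro s a b hab
    have := hrinv _ hfix (sec a) (sec b) s (by rw [hsec, hsec]; exact hab)
    exact this
  have g0 : ∀ a, g (nx a) = nx (g a) := by
    intro a
    have := hgD 0 (nx a) a 0 1
    simp only [Eq3_zero, Function.iterate_zero, id, Function.iterate_one] at this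
    exact this.1 trivial
  have g1 : ∀ a b, a.p = b.p → (g a).p = (g b).p := by
    intro a b hab
    have := hgD 1 a b 0 0
    simp only [Eq3_one, Function.iterate_zero, id] at this
    exact this.1 hab
  have g2 : ∀ a b, a.p.1 = b.p.1 → (g a).p.1 = (g b).p.1 := by
    intro a b hab
    have := hgD 2 a b 0 0
    simp only [Eq3_two, Function.iterate_zero, id] at this
    exact this.1 hab
  -- now the contradiction
  obtain ⟨w, hw⟩ : ∃ w : XB.Pt, w = π x := ⟨_, rfl⟩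
  have hwne : w.p.1 ≠ (g w).p.1 := by
    rw [hw, hg]
    exact fun h => hne h.symm
  let y : XB.Pt := mkB w.p.1 (g w).p.1 0 0 true hwne
  have hy1 : (g y).p.1 = (g w).p.1 := g2 y w rfl
  have hy2 : (g y).p.2.1 = w.p.1 := by
    have h1 : (nx y).p.1 = (g w).p.1 := rfl
    have h2 := g2 (nx y) (g w) h1
    rw [hgg, g0] at h2
    rw [← h2]
    exact (g y).h.1.symm
  let u : XB.Pt := ⟨y.p, (g y).p, true, by
    refine ⟨?_, ?_, hwne⟩
    · rw [hy1]; rfl
    · rw [hy2]; rfl⟩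
  have hu1 : (g u).p = (g y).p := g1 u y rfl
  have hu2 : (g u).q = y.p := by
    have h1 : (g (nx u)).p = (g (g y)).p := g1 (nx u) (g y) rfl
    rw [hgg, g0] at h1
    exact h1
  have hu3 : (g u).p = (nx u).p := hu1
  have hu4 : (g u).q = (nx u).q := hu2
  rcases same (g u) (nx u) hu3 hu4 with h | h
  · have := congrArg g h
    rw [hgg, g0, h] at this
    exact nx2_ne u this.symm
  · have := congrArg g h
    rw [hgg, g0, g0, g0, h, nx4] at this
    exact nx2_ne u this.symm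

instance : Countable XA.Pt := by
  have : Function.Injective (fun x : XA.Pt => ((x.p, x.q, x.e) :
      (ℕ × ℕ × ℕ × Bool) × (ℕ × ℕ × ℕ × Bool) × Bool)) := by
    intro x y h
    exact Pt.ext' (congrArg Prod.fst h) (congrArg (fun t => t.2.1) h) (congrArg (fun t => t.2.2) h)
  exact this.countable

instance : Countable XB.Pt := by
  have : Function.Injective (fun x : XB.Pt => ((x.p, x.q, x.e) :
      (ℕ × ℕ × ℕ) × (ℕ × ℕ × ℕ) × Bool)) := by
    intro x y h
    exact Pt.ext' (congrArg Prod.fst h) (congrArg (fun t => t.2.1) h) (congrArg (fun t => t.2.2) h)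
  exact this.countable

theorem oligomorphic_B : Oligomorphic Lc XB.Pt := by
  classical
  intro n
  let T := {δ : Sym → Fin n → Fin n → Prop // ∃ v : Fin n → XB.Pt, diag v = δ}
  let r : T → (Fin n → XB.Pt) := fun δ => δ.2.choose
  have hr : ∀ δ : T, diag (r δ) = δ.1 := fun δ => δ.2.choose_spec
  refine ⟨Set.range r, Set.finite_range r, fun v => ?_⟩
  obtain ⟨g, hg⟩ := homog v (r ⟨diag v, v, rfl⟩) (dEq_of_diag _ _ (hr ⟨diag v, v, rfl⟩).symm)
  exact ⟨g, ⟨⟨diag v, v, rfl⟩, (funext hg).symm⟩⟩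

theorem core_B : IsModelCompleteCore Lc XB.Pt := by
  refine ⟨inferInstance, oligomorphic_B, ?_⟩
  intro f n φ v hφ
  have hD : DEq v (f ∘ v) := by
    apply dEq_of_rel
    intro s i j h
    have h1 := f.map_rel (Rels.r s : Lc.Relations 2) (![v i, v j]) h
    exact h1
  obtain ⟨g, hg⟩ := homog v (f ∘ v) hD
  have : f ∘ v = g ∘ v := (funext hg).symm
  rw [this]
  exact (StrongHomClass.realize_formula g φ).2 hφ

end Pool.Agent.PureEq
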