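import Pool.Agent.PureEq.Cover

open FirstOrder FirstOrder.Language FirstOrder.Language.Structure

namespace Pool.Agent.PureEq

open Cover

/-- the cover underlying the structure `A` -/
def XA : Cover where
  Z := ℕ × ℕ × ℕ × Bool
  s := fun z => z.1
  E := fun z z' => z'.1 = z.2.1 ∧ z'.2.1 = z.1 ∧ z.1 ≠ z.2.1 ∧ z'.2.2.2 = !z.2.2.2
  c := fun z _ => z.2.2.2
  symm := by
    rintro ⟨a, b, k, j⟩ ⟨a', b', k', j'⟩ ⟨h1, h2, h3, h4⟩
    simp only at h1 h2 h3 h4 ⊢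
    subst h1; subst h2; subst h4
    exact ⟨rfl, rfl, fun h => h3 h.symm, by simp⟩
  anti := by
    rintro ⟨a, b, k, j⟩ ⟨a', b', k', j'⟩ ⟨h1, h2, h3, h4⟩
    exact h4

/-- the cover underlying the structure `B` -/
def XB : Cover where
  Z := ℕ × ℕ × ℕ
  s := fun z => z.1
  E := fun z z' => z'.1 = z.2.1 ∧ z'.2.1 = z.1 ∧ z.1 ≠ z.2.1
  c := fun z _ => decide (z.1 < z.2.1)
  symm := by
    rintro ⟨a, b, k⟩ ⟨a', b', k'⟩ ⟨h1, h2, h3⟩
    simp only at h1 h2 h3 ⊢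
    subst h1; subst h2
    exact ⟨rfl, rfl, fun h => h3 h.symm⟩
  anti := by
    rintro ⟨a, b, k⟩ ⟨a', b', k'⟩ ⟨h1, h2, h3⟩
    simp only at h1 h2 h3 ⊢
    subst h1; subst h2
    rcases lt_or_gt_of_ne h3 with h | h
    · simp [h, h.le]
    · simp [h, h.le]

/-- automorphisms of `B` -/
theorem exists_aut (σ : Equiv.Perm ℕ) (τ : ℕ → ℕ → Equiv.Perm ℕ)
    (δ : XB.Z → XB.Z → Bool)
    (hδ : ∀ z z', XB.E z z' → xor (δ z z') (decide (σ z.1 < σ z.2.1)) =
      xor (δ z' z) (decide (z.1 < z.2.1))) :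
    ∃ g : XB.Pt ≃[Lc] XB.Pt, ∀ x : XB.Pt,
      (g x).p = (σ x.p.1, σ x.p.2.1, τ x.p.1 x.p.2.1 x.p.2.2) ∧
      (g x).q = (σ x.q.1, σ x.q.2.1, τ x.q.1 x.q.2.1 x.q.2.2) ∧
      (g x).e = xor x.e (δ x.p x.q) := by
  let F : XB.Z → XB.Z := fun z => (σ z.1, σ z.2.1, τ z.1 z.2.1 z.2.2)
  let G : XB.Z → XB.Z := fun z => (σ.symm z.1, σ.symm z.2.1,
    (τ (σ.symm z.1) (σ.symm z.2.1)).symm z.2.2)
  have FG : ∀ z, F (G z) = z := by
    rintro ⟨a, b, k⟩
    refine Prod.ext ?_ (Prod.ext ?_ ?_) <;> simp [F, G]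
  have GF : ∀ z, G (F z) = z := by
    rintro ⟨a, b, k⟩
    refine Prod.ext ?_ (Prod.ext ?_ ?_) <;> simp [F, G]
  have FE : ∀ z z', XB.E z z' → XB.E (F z) (F z') := by
    rintro ⟨a, b, k⟩ ⟨a', b', k'⟩ ⟨h1, h2, h3⟩
    simp only at h1 h2 h3
    subst h1; subst h2
    exact ⟨rfl, rfl, fun h => h3 (σ.injective h)⟩
  have GE : ∀ z z', XB.E z z' → XB.E (G z) (G z') := by
    rintro ⟨a, b, k⟩ ⟨a', b', k'⟩ ⟨h1, h2, h3⟩
    simp only at h1 h2 h3
    subst h1; subst h2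
    exact ⟨rfl, rfl, fun h => h3 (σ.symm.injective h)⟩
  let g : XB.Pt → XB.Pt := fun x => ⟨F x.p, F x.q, xor x.e (δ x.p x.q), FE _ _ x.h⟩
  let g' : XB.Pt → XB.Pt := fun x => ⟨G x.p, G x.q, xor x.e (δ (G x.p) (G x.q)), GE _ _ x.h⟩
  have hgg' : ∀ x, g (g' x) = x := by
    intro x
    apply Pt.ext' <;> simp [g, g', FG]
  have hg'g : ∀ x, g' (g x) = x := by
    intro x
    apply Pt.ext' <;> simp [g, g', GF]
  have hn : ∀ x, g (nx x) = nx (g x) := by
    intro x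
    apply Pt.ext'
    · rfl
    · rfl
    · have := hδ x.p x.q x.h
      simp only [g, nx_e, nx_p, nx_q]
      show xor (xor x.e (decide (x.p.1 < x.p.2.1))) (δ x.q x.p) =
        xor (xor x.e (δ x.p x.q)) (decide (σ x.p.1 < σ x.p.2.1))
      rw [Bool.xor_assoc, Bool.xor_assoc, this, Bool.xor_comm (δ x.q x.p)]
  have hinj : Function.Injective g := Function.LeftInverse.injective hg'g
  have hF : Function.Injective F := Function.LeftInverse.injective GF
  have hD : DEq (fun x : XB.Pt => x) g := by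
    refine dEq_of_comm g hn hinj (fun x y => hF.eq_iff) (fun x y => ?_)
    show σ x.p.1 = σ y.p.1 ↔ x.p.1 = y.p.1
    exact σ.injective.eq_iff
  refine ⟨{ toFun := g, invFun := g', left_inv := hg'g, right_inv := hgg',
            map_fun' := fun f => f.elim, map_rel' := ?_ }, fun x => ⟨rfl, rfl, rfl⟩⟩
  intro n r x
  exact (mkEmb g hD).map_rel' r x

/-- homogeneity of `B` -/
theorem homog {ι : Type*} [Finite ι] (v w : ι → XB.Pt) (h : DEq v w) :
    ∃ g : XB.Pt ≃[Lc] XB.Pt, ∀ i, g (v i) = w i := by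
  classical
  let v' : ι × Fin 4 → XB.Pt := fun i => nx^[(i.2 : ℕ)] (v i.1)
  let w' : ι × Fin 4 → XB.Pt := fun i => nx^[(i.2 : ℕ)] (w i.1)
  have h' : ∀ κ i j (c d : ℕ), Eq3 κ (nx^[c] (v' i)) (nx^[d] (v' j)) ↔
      Eq3 κ (nx^[c] (w' i)) (nx^[d] (w' j)) := by
    intro κ i j c d
    simp only [v', w', ← Function.iterate_add_apply]
    exact h κ _ _ _ _
  have h0 : ∀ i j, v' i = v' j ↔ w' i = w' j := fun i j => by simpa using h' 0 i j 0 0
  have h02 : ∀ i j, v' i = nx (nx (v' j)) ↔ w' i = nx (nx (w' j)) := fun i j => by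
    simpa using h' 0 i j 0 2
  have h1 : ∀ i j, (v' i).p = (v' j).p ↔ (w' i).p = (w' j).p := fun i j => by
    simpa using h' 1 i j 0 0
  have h2 : ∀ i j, (v' i).p.1 = (v' j).p.1 ↔ (w' i).p.1 = (w' j).p.1 := fun i j => by
    have := h' 2 i j 0 0
    rw [Eq3_two, Eq3_two] at this
    exact this
  have hnext : ∀ i, ∃ j, nx (v' i) = v' j ∧ nx (w' i) = w' j := by
    rintro ⟨i, c⟩
    refine ⟨(i, ⟨(c + 1) % 4, Nat.mod_lt _ (by norm_num)⟩), ?_, ?_⟩
    · simp only [v']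
      rw [← nx_iter_mod, Function.iterate_succ_apply']
    · simp only [w']
      rw [← nx_iter_mod, Function.iterate_succ_apply']
  have hp2 : ∀ (x : XB.Pt), x.p.2.1 = x.q.1 := fun x => x.h.1.symm
  have hq2 : ∀ (x : XB.Pt), x.q.2.1 = x.p.1 := fun x => x.h.2.1
  -- the permutation of the base
  obtain ⟨σ, hσ⟩ := exists_perm (fun i => (v' i).p.1) (fun i => (w' i).p.1) h2
  have hσ' : ∀ i, σ (v' i).p.2.1 = (w' i).p.2.1 := by
    intro i
    obtain ⟨j, hj, hj'⟩ := hnext i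
    rw [hp2, hp2, ← nx_p, ← nx_p, hj, hj']
    exact hσ j
  have hτ : ∀ a b : ℕ, ∃ τ : Equiv.Perm ℕ, ∀ i, (v' i).p.1 = a → (v' i).p.2.1 = b →
      τ (v' i).p.2.2 = (w' i).p.2.2 := by
    intro a b
    obtain ⟨τ, hτ⟩ := exists_perm
      (fun i : {i // (v' i).p.1 = a ∧ (v' i).p.2.1 = b} => (v' i.1).p.2.2)
      (fun i : {i // (v' i).p.1 = a ∧ (v' i).p.2.1 = b} => (w' i.1).p.2.2) (by
        rintro ⟨i, hi, hi'⟩ ⟨j, hj, hj'⟩
        have e1 : (v' i).p.2.2 = (v' j).p.2.2 ↔ (v' i).p = (v' j).p := by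
          constructor
          · intro hh; exact Prod.ext (hi.trans hj.symm) (Prod.ext (hi'.trans hj'.symm) hh)
          · intro hh; rw [hh]
        have e2 : (w' i).p.2.2 = (w' j).p.2.2 ↔ (w' i).p = (w' j).p := by
          constructor
          · intro hh
            refine Prod.ext ?_ (Prod.ext ?_ hh)
            · rw [← hσ, ← hσ, hi, hj]
            · rw [← hσ', ← hσ', hi', hj']
          · intro hh; rw [hh]
        exact e1.trans ((h1 i j).trans e2.symm))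
    exact ⟨τ, fun i hi hi' => hτ ⟨i, hi, hi'⟩⟩
  choose τ hτ using hτ
  -- the sign function
  let δ : XB.Z → XB.Z → Bool := fun z z' =>
    if hh : ∃ i, (v' i).p = z ∧ (v' i).q = z' then
      xor (v' hh.choose).e (w' hh.choose).e
    else if z.1 < z.2.1 then false else xor (decide (z.1 < z.2.1)) (decide (σ z.1 < σ z.2.1))
  have hδ1 : ∀ i, δ (v' i).p (v' i).q = xor (v' i).e (w' i).e := by
    intro i
    have hh : ∃ j, (v' j).p = (v' i).p ∧ (v' j).q = (v' i).q := ⟨i, rfl, rfl⟩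
    have hc := hh.choose_spec
    simp only [δ, dif_pos hh]
    generalize hh.choose = j at hc ⊢
    rcases same (v' j) (v' i) hc.1 hc.2 with e | e
    · have e' := (h0 j i).1 e
      rw [e, e']
    · have e' := (h02 j i).1 e
      rw [e, e', nx2, nx2]
      simp
  have hδ : ∀ z z', XB.E z z' → xor (δ z z') (decide (σ z.1 < σ z.2.1)) =
      xor (δ z' z) (decide (z.1 < z.2.1)) := by
    intro z z' hE
    by_cases hh : ∃ i, (v' i).p = z ∧ (v' i).q = z'
    · obtain ⟨i, rfl, rfl⟩ := hh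
      obtain ⟨j, hj, hj'⟩ := hnext i
      have e1 := hδ1 i
      have e2 := hδ1 j
      rw [← hj, ← hj'] at e2
      simp only [nx_p, nx_q, nx_e] at e2
      rw [e1, e2, hσ i, hσ' i]
      show xor (xor (v' i).e (w' i).e) (decide ((w' i).p.1 < (w' i).p.2.1)) =
        xor (xor (xor (v' i).e (decide ((v' i).p.1 < (v' i).p.2.1)))
        (xor (w' i).e (decide ((w' i).p.1 < (w' i).p.2.1))))
          (decide ((v' i).p.1 < (v' i).p.2.1))
      generalize decide ((v' i).p.1 < (v' i).p.2.1) = a1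
      generalize decide ((w' i).p.1 < (w' i).p.2.1) = a2
      cases (v' i).e <;> cases (w' i).e <;> cases a1 <;> cases a2 <;> rfl
    · have hh' : ¬ ∃ i, (v' i).p = z' ∧ (v' i).q = z := by
        rintro ⟨i, rfl, rfl⟩
        obtain ⟨j, hj, hj'⟩ := hnext i
        exact hh ⟨j, by rw [← hj]; rfl, by rw [← hj]; rfl⟩
      simp only [δ, dif_neg hh, dif_neg hh']
      obtain ⟨a, b, k⟩ := z
      obtain ⟨a', b', k'⟩ := z'
      obtain ⟨h1, h2, h3⟩ := hE
      simp only at h1 h2 h3 ⊢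
      subst h1; subst h2
      have h3' : σ b' ≠ σ a' := fun h => h3 (σ.injective h)
      rcases lt_or_gt_of_ne h3 with l | l <;> rcases lt_or_gt_of_ne h3' with l' | l' <;>
        simp [l, l', not_lt.2 l.le, not_lt.2 l'.le]
  obtain ⟨g, hg⟩ := exists_aut σ τ δ hδ
  refine ⟨g, fun i => ?_⟩
  have hi : v' (i, 0) = v i := rfl
  have hi' : w' (i, 0) = w i := rfl
  obtain ⟨j, hj, hj'⟩ := hnext (i, 0)
  obtain ⟨g1, g2, g3⟩ := hg (v i)
  rw [← hi, ← hi'] at *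
  apply Pt.ext'
  · rw [g1]
    exact Prod.ext (hσ _) (Prod.ext (hσ' _) (hτ _ _ _ rfl rfl))
  · rw [g2, ← nx_p, ← nx_p, hj, hj']
    exact Prod.ext (hσ _) (Prod.ext (hσ' _) (hτ _ _ _ rfl rfl))
  · rw [g3, hδ1]
    simp

end Pool.Agent.PureEq
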