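import Pool.Agent.PureEq.Defs

open FirstOrder FirstOrder.Language FirstOrder.Language.Structure

namespace Pool.Agent.PureEq

/-- extension of finite partial injections of `ℕ` -/
theorem exists_perm {κ : Type*} [Finite κ] (u u' : κ → ℕ) (h : ∀ i j, u i = u j ↔ u' i = u' j) :
    ∃ σ : Equiv.Perm ℕ, ∀ i, σ (u i) = u' i := by
  classical
  let f : Set.range u → ℕ := fun x => u' (Classical.choose x.2)
  have hf : ∀ i, f ⟨u i, i, rfl⟩ = u' i := by
    intro i
    have := Classical.choose_spec (⟨i, rfl⟩ : ∃ j, u j = u i)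
    exact (h _ _).1 this
  have hinj : Function.Injective f := by
    rintro ⟨_, i, rfl⟩ ⟨_, j, rfl⟩ hij
    rw [hf, hf] at hij
    exact Subtype.ext ((h _ _).2 hij)
  have hfin : (Set.range u).Finite := Set.finite_range u
  obtain ⟨g, hg⟩ := Cardinal.extend_function_of_lt (α := ℕ) (β := ℕ) (s := Set.range u)
    ⟨f, hinj⟩ (by
      rw [Cardinal.mk_nat]
      exact Cardinal.lt_aleph0_iff_set_finite.2 hfin) ⟨Equiv.refl _⟩
  refine ⟨g, fun i => ?_⟩
  have := hg ⟨u i, i, rfl⟩
  simp only [Function.Embedding.coeFn_mk] at this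
  rw [this, hf]

theorem definable_eq (C : Set ℕ) {α : Type} (i j : α) :
    C.Definable Language.empty {x : α → ℕ | x i = x j} := by
  rw [Set.definable_iff_exists_formula_sum]
  refine ⟨Term.equal (Term.var (Sum.inr i)) (Term.var (Sum.inr j)), ?_⟩
  ext x
  simp

/-- a `Sym(ℕ)`-invariant set of tuples is definable without parameters in `(ℕ;=)` -/
theorem definable_of_invariant {α : Type} [Finite α] (S : Set (α → ℕ))
    (h : ∀ (σ : Equiv.Perm ℕ) (x : α → ℕ), x ∈ S → σ ∘ x ∈ S) :
    (∅ : Set ℕ).Definable Language.empty S := by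
  classical
  let SK : (α → α → Prop) → Set (α → ℕ) := fun K => {x | ∀ i j, x i = x j ↔ K i j}
  have hSK : ∀ K, (∅ : Set ℕ).Definable Language.empty (SK K) := by
    intro K
    have : SK K = ⋂ i, ⋂ j, {x : α → ℕ | x i = x j ↔ K i j} := by
      ext x; simp [SK]
    rw [this]
    refine Set.definable_iInter_of_finite fun i => Set.definable_iInter_of_finite fun j => ?_
    by_cases hK : K i j
    · have := definable_eq ∅ i j
      simpa [hK] using this
    · have := (definable_eq ∅ i j).compl
      have e : {x : α → ℕ | x i = x j ↔ K i j} = {x : α → ℕ | x i = x j}ᶜ := by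
        ext x; simp [hK]
      rw [e]; exact this
  have hS : S = ⋃ K : {K : α → α → Prop // (S ∩ SK K).Nonempty}, SK K.1 := by
    ext y
    simp only [Set.mem_iUnion]
    constructor
    · intro hy
      exact ⟨⟨fun i j => y i = y j, y, hy, fun i j => Iff.rfl⟩, fun i j => Iff.rfl⟩
    · rintro ⟨⟨K, x, hx, hxK⟩, hy⟩
      obtain ⟨σ, hσ⟩ := exists_perm x y (fun i j => (hxK i j).trans (hy i j).symm)
      have : σ ∘ x = y := funext hσ
      rw [← this]
      exact h σ x hx
  rw [hS]
  exact Set.definable_iUnion_of_finite fun K => hSK K.1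

/-- sets definable with parameters `C` are invariant under permutations fixing `C` pointwise -/
theorem invariant_of_definable {α : Type} {C : Set ℕ} {S : Set (α → ℕ)}
    (h : C.Definable Language.empty S) (σ : Equiv.Perm ℕ) (hσ : ∀ c ∈ C, σ c = c)
    (x : α → ℕ) (hx : x ∈ S) : σ ∘ x ∈ S := by
  rw [Set.definable_iff_exists_formula_sum] at h
  obtain ⟨φ, rfl⟩ := h
  have hx' : φ.Realize (Sum.elim (fun c : C => (c : ℕ)) x) := hx
  show φ.Realize (Sum.elim (fun c : C => (c : ℕ)) (σ ∘ x))
  let g : ℕ ≃[Language.empty] ℕ := { toEquiv := σ }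
  have := (StrongHomClass.realize_formula g φ
    (v := Sum.elim (fun c : C => (c : ℕ)) x)).2 hx'
  convert this using 1
  funext i
  rcases i with c | i
  · simp only [Sum.elim_inl, Function.comp]
    exact (hσ c c.2).symm
  · rfl

/-- a function on a set of tuples which is invariant under the transpositions avoiding a finite
set `C` takes only finitely many values. -/
theorem finite_image {d : ℕ} {X : Type} (C : Set ℕ) (hC : C.Finite) (D : Set (Fin d → ℕ))
    (hD : ∀ i j, i ∉ C → j ∉ C → ∀ x ∈ D, Equiv.swap i j ∘ x ∈ D)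
    (f : (Fin d → ℕ) → X)
    (hf : ∀ i j, i ∉ C → j ∉ C → ∀ x ∈ D, f (Equiv.swap i j ∘ x) = f x) :
    (f '' D).Finite := by
  classical
  obtain ⟨m, hm⟩ : ∃ m, ∀ c ∈ C, c < m := by
    obtain ⟨m, hm⟩ := hC.bddAbove
    exact ⟨m + 1, fun c hc => Nat.lt_succ_of_le (hm hc)⟩
  have key : ∀ (k : ℕ) (x : Fin d → ℕ), x ∈ D →
      ((Finset.univ.image x).filter (fun n => m + d ≤ n)).card = k →
      ∃ y ∈ D, (∀ i, y i < m + d) ∧ f y = f x := by
    intro k
    induction k with
    | zero =>
      intro x hx h0
      refine ⟨x, hx, fun i => ?_, rfl⟩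
      rw [Finset.card_eq_zero, Finset.filter_eq_empty_iff] at h0
      exact not_le.1 (h0 (Finset.mem_image_of_mem x (Finset.mem_univ i)))
    | succ k ih =>
      intro x hx hk
      have hne : ((Finset.univ.image x).filter (fun n => m + d ≤ n)).Nonempty := by
        rw [← Finset.card_pos]; omega
      obtain ⟨n, hn⟩ := hne
      rw [Finset.mem_filter] at hn
      -- a free value
      obtain ⟨w, hw, hwx⟩ : ∃ w ∈ Finset.Ico m (m + d), w ∉ Finset.univ.image x := by
        by_contra hcon
        push Not at hcon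
        have hsub : insert n (Finset.Ico m (m + d)) ⊆ Finset.univ.image x := by
          intro a ha
          rcases Finset.mem_insert.1 ha with rfl | ha
          · exact hn.1
          · exact hcon a ha
        have h1 := Finset.card_le_card hsub
        have h2 : (Finset.univ.image x).card ≤ d := by
          simpa using (Finset.card_image_le (s := (Finset.univ : Finset (Fin d))) (f := x))
        rw [Finset.card_insert_of_notMem (by simp [Finset.mem_Ico]; omega)] at h1
        simp only [Nat.card_Ico] at h1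
        omega
      rw [Finset.mem_Ico] at hw
      have hnC : n ∉ C := fun h => by have := hm n h; omega
      have hwC : w ∉ C := fun h => by have := hm w h; omega
      have himg : (Finset.univ.image (Equiv.swap n w ∘ x)).filter (fun n => m + d ≤ n) =
          ((Finset.univ.image x).filter (fun n => m + d ≤ n)).erase n := by
        ext a
        simp only [Finset.mem_filter, Finset.mem_image, Finset.mem_univ, true_and,
          Finset.mem_erase, Function.comp]
        constructor
        · rintro ⟨⟨i, rfl⟩, hi⟩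
          by_cases h1 : x i = n
          · rw [h1, Equiv.swap_apply_left] at hi; omega
          · have h2 : x i ≠ w := fun h => hwx (h ▸ Finset.mem_image_of_mem x (Finset.mem_univ i))
            rw [Equiv.swap_apply_of_ne_of_ne h1 h2] at hi ⊢
            exact ⟨h1, ⟨i, rfl⟩, hi⟩
        · rintro ⟨h1, ⟨i, rfl⟩, hi⟩
          have h2 : x i ≠ w := fun h => hwx (h ▸ Finset.mem_image_of_mem x (Finset.mem_univ i))
          exact ⟨⟨i, by rw [Equiv.swap_apply_of_ne_of_ne h1 h2]⟩, hi⟩
      obtain ⟨y, hy, hy', hfy⟩ := ih (Equiv.swap n w ∘ x) (hD n w hnC hwC x hx) (by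
        rw [himg, Finset.card_erase_of_mem (Finset.mem_filter.2 hn), hk]; rfl)
      exact ⟨y, hy, hy', hfy.trans (hf n w hnC hwC x hx)⟩
  have hfin : {y : Fin d → ℕ | ∀ i, y i < m + d}.Finite := by
    have := Set.Finite.pi' (fun i : Fin d => Set.finite_Iio (m + d))
    simpa using this
  refine (hfin.image f).subset ?_
  rintro _ ⟨x, hx, rfl⟩
  obtain ⟨y, -, hy', hfy⟩ := key _ x hx rfl
  exact ⟨y, hy', hfy⟩

end Pool.Agent.PureEq
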