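import Pool.Agent.PureEq.Homog

open FirstOrder FirstOrder.Language FirstOrder.Language.Structure

namespace Pool.Agent.PureEq

open Cover

universe u

/-- the atomic diagram of a tuple in an `Lc`-structure -/
def diag {M : Type*} [Lc.Structure M] {n : ℕ} (v : Fin n → M) : Sym → Fin n → Fin n → Prop :=
  fun s i j => RelMap (L := Lc) (Rels.r s : Lc.Relations 2) ![v i, v j]

/-- the quantifier-free formula expressing `diag v = δ` -/
noncomputable def chi {n : ℕ} (δ : Sym → Fin n → Fin n → Prop) : Lc.Formula (Fin n) :=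
  Formula.iInf fun t : Sym × Fin n × Fin n =>
    open Classical in
    if δ t.1 t.2.1 t.2.2 then
      Relations.formula₂ (Rels.r t.1 : Lc.Relations 2) (Term.var t.2.1) (Term.var t.2.2)
    else (Relations.formula₂ (Rels.r t.1 : Lc.Relations 2) (Term.var t.2.1) (Term.var t.2.2)).not

theorem realize_chi {M : Type*} [Lc.Structure M] {n : ℕ} (δ : Sym → Fin n → Fin n → Prop)
    (v : Fin n → M) : (chi δ).Realize v ↔ diag v = δ := by
  classical
  unfold chi
  rw [Formula.realize_iInf]
  constructor
  · intro h
    funext s i j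
    have := h (s, i, j)
    by_cases hδ : δ s i j
    · simp only [hδ, if_true] at this
      rw [Formula.realize_rel₂] at this
      exact eq_iff_iff.2 ⟨fun _ => hδ, fun _ => this⟩
    · simp only [hδ, if_false] at this
      rw [Formula.realize_not, Formula.realize_rel₂] at this
      exact eq_iff_iff.2 ⟨fun h => absurd h this, fun h => absurd h hδ⟩
  · rintro rfl ⟨s, i, j⟩
    by_cases hδ : diag v s i j
    · simp only [hδ, if_true]
      rw [Formula.realize_rel₂]
      exact hδ
    · simp only [hδ, if_false]
      rw [Formula.realize_not, Formula.realize_rel₂]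
      exact hδ

theorem diag_emb {M N : Type*} [Lc.Structure M] [Lc.Structure N] {n : ℕ} (f : M ↪[Lc] N)
    (v : Fin n → M) : diag (f ∘ v) = diag v := by
  funext s i j
  unfold diag
  rw [← f.map_rel (Rels.r s : Lc.Relations 2) (![v i, v j])]
  congr 1
  funext k
  fin_cases k <;> rfl

theorem dEq_of_diag {X Y : Cover} {n : ℕ} (v : Fin n → X.Pt) (w : Fin n → Y.Pt)
    (h : diag v = diag w) : DEq v w := by
  apply dEq_of_rel
  intro s i j hs
  have := congrFun (congrFun (congrFun h s) i) j
  exact (eq_iff_iff.1 this).1 hs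

/-- every formula is equivalent in `B` to a quantifier-free formula of the form `⋁ chi δ` -/
theorem qe {n : ℕ} (φ : Lc.Formula (Fin n)) :
    ∃ ψ : Lc.Formula (Fin n), (∀ v : Fin n → XB.Pt, φ.Realize v ↔ ψ.Realize v) ∧
      (∀ (M : Type u) [Lc.Structure M] (N : Type u) [Lc.Structure N] (f : M ↪[Lc] N)
        (v : Fin n → M), ψ.Realize (f ∘ v) ↔ ψ.Realize v) := by
  classical
  refine ⟨Formula.iSup fun δ : {δ : Sym → Fin n → Fin n → Prop //
    ∃ v : Fin n → XB.Pt, φ.Realize v ∧ diag v = δ} => chi δ.1, ?_, ?_⟩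
  · intro v
    rw [Formula.realize_iSup]
    constructor
    · intro h
      exact ⟨⟨diag v, v, h, rfl⟩, (realize_chi _ _).2 rfl⟩
    · rintro ⟨⟨δ, w, hw, rfl⟩, h⟩
      rw [realize_chi] at h
      obtain ⟨g, hg⟩ := homog w v (dEq_of_diag w v h.symm)
      have : (g : XB.Pt → XB.Pt) ∘ w = v := funext hg
      rw [← this]
      exact (StrongHomClass.realize_formula g φ).2 hw
  · intro M _ N _ f v
    rw [Formula.realize_iSup, Formula.realize_iSup]
    simp only [realize_chi, diag_emb]

/-- transfer of a universally quantified equivalence to models of the complete theory -/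
theorem transfer_all {A : Type} [Lc.Structure A] {M : Type u} [Lc.Structure M]
    (hM : M ⊨ Lc.completeTheory A) {n : ℕ} (φ : Lc.Formula (Fin n))
    (h : ∀ v : Fin n → A, φ.Realize v) : ∀ v : Fin n → M, φ.Realize v := by
  let ψ : Lc.Sentence := Formula.iAlls (α := Empty) (Fin n) (φ.relabel Sum.inr)
  have hψ : A ⊨ ψ := by
    show Formula.Realize ψ _
    rw [Formula.realize_iAlls]
    intro v
    rw [Formula.realize_relabel]
    exact h _
  have hmem : ψ ∈ Lc.completeTheory A := hψ
  have := hM.realize_of_mem ψ hmem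
  intro v
  have h2 : Formula.Realize ψ (default : Empty → M) := this
  rw [Formula.realize_iAlls] at h2
  have h3 := h2 v
  rw [Formula.realize_relabel] at h3
  exact h3

theorem modelComplete : ModelComplete.{u} Lc (Lc.completeTheory XB.Pt) := by
  intro M N _ _ hM hN f n φ v
  obtain ⟨ψ, h1, h2⟩ := qe.{u} φ
  have hM' := transfer_all hM (φ.iff ψ) (fun v => by rw [Formula.realize_iff]; exact h1 v) v
  have hN' := transfer_all hN (φ.iff ψ) (fun v => by rw [Formula.realize_iff]; exact h1 v) (f ∘ v)
  rw [Formula.realize_iff] at hM' hN'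
  rw [hM', hN']
  exact h2 M N f v

/-- existential transfer -/
theorem transfer_ex {A : Type} [Lc.Structure A] {M : Type u} [Lc.Structure M]
    (hM : M ⊨ Lc.completeTheory A) {n : ℕ} (v : Fin n → M) :
    ∃ w : Fin n → A, diag w = diag v := by
  by_contra hcon
  push Not at hcon
  have := transfer_all hM (chi (diag v)).not (fun w => by
    rw [Formula.realize_not, realize_chi]; exact hcon w) v
  rw [Formula.realize_not, realize_chi] at this
  exact this rfl

/-- if `A` embeds into `B`, every model of `Th(A)` embeds into a model of `Th(B)`. -/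
theorem embeds {X Y : Cover} [Nonempty Y.Pt] (f : X.Pt ↪[Lc] Y.Pt) (M : Type u)
    [Lc.Structure M] (hM : M ⊨ Lc.completeTheory X.Pt) :
    ∃ (N : Type u) (_ : Lc.Structure N), N ⊨ Lc.completeTheory Y.Pt ∧ Nonempty (M ↪[Lc] N) := by
  classical
  -- finite approximations
  have hS : ∀ S : Finset M, ∃ h : M → Y.Pt, ∀ (s : Sym), ∀ a ∈ S, ∀ b ∈ S,
      (RelMap (L := Lc) (Rels.r s : Lc.Relations 2) ![h a, h b] ↔
        RelMap (L := Lc) (Rels.r s : Lc.Relations 2) ![a, b]) := by
    intro S
    obtain ⟨w, hw⟩ := transfer_ex hM (fun i : Fin S.card => (S.equivFin.symm i : M))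
    let y0 : Y.Pt := Classical.arbitrary _
    refine ⟨fun a => if ha : a ∈ S then f (w (S.equivFin ⟨a, ha⟩)) else y0, ?_⟩
    intro s a ha b hb
    have h1 := congrFun (congrFun (congrFun hw s) (S.equivFin ⟨a, ha⟩)) (S.equivFin ⟨b, hb⟩)
    have h2 := f.map_rel (Rels.r s : Lc.Relations 2)
      ![w (S.equivFin ⟨a, ha⟩), w (S.equivFin ⟨b, hb⟩)]
    simp only [diag, Equiv.symm_apply_apply, eq_iff_iff] at h1
    simp only [dif_pos ha, dif_pos hb]
    rw [← h1, ← h2]
    have : (![f (w (S.equivFin ⟨a, ha⟩)), f (w (S.equivFin ⟨b, hb⟩))] : Fin 2 → Y.Pt) =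
        f ∘ ![w (S.equivFin ⟨a, ha⟩), w (S.equivFin ⟨b, hb⟩)] := by
      funext k; fin_cases k <;> rfl
    rw [this]
  choose h hh using hS
  let U : Ultrafilter (Finset M) := Ultrafilter.of Filter.atTop
  have hU : ∀ a : M, ∀ᶠ S in (U : Filter (Finset M)), a ∈ S := by
    intro a
    refine (Ultrafilter.of_le (f := (Filter.atTop : Filter (Finset M)))) ?_
    filter_upwards [Filter.eventually_ge_atTop {a}] with S hS
    exact hS (Finset.mem_singleton_self a)
  let N : Type u := (U : Filter (Finset M)).Product (fun _ => Y.Pt)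
  let e : M → N := fun a => ((fun S => h S a : Finset M → Y.Pt) :
    (U : Filter (Finset M)).Product (fun _ => Y.Pt))
  have hrel : ∀ (s : Sym) (a b : M),
      (RelMap (L := Lc) (Rels.r s : Lc.Relations 2) ![e a, e b] ↔
        RelMap (L := Lc) (Rels.r s : Lc.Relations 2) ![a, b]) := by
    intro s a b
    have h1 := Ultraproduct.realize_formula_cast (L := Lc) (M := fun _ : Finset M => Y.Pt)
      (u := U) (Relations.formula₂ (Rels.r s : Lc.Relations 2) (Term.var (0 : Fin 2))
        (Term.var (1 : Fin 2))) (fun i S => h S (![a, b] i))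
    rw [Formula.realize_rel₂] at h1
    simp only [Term.realize_var, Formula.realize_rel₂] at h1
    refine h1.trans ?_
    have h2 : ∀ᶠ S in (U : Filter (Finset M)),
        (RelMap (L := Lc) (Rels.r s : Lc.Relations 2) ![h S (![a, b] 0), h S (![a, b] 1)] ↔
          RelMap (L := Lc) (Rels.r s : Lc.Relations 2) ![a, b]) := by
      filter_upwards [hU a, hU b] with S ha hb
      exact hh S s a ha b hb
    rw [Filter.eventually_congr h2]
    exact Filter.eventually_const
  have hinj : Function.Injective e := by
    intro a b hab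
    by_contra hne
    have h1 : ∀ᶠ S in (U : Filter (Finset M)), h S a = h S b := Quotient.exact' hab
    obtain ⟨S, hS1, hSa, hSb⟩ := (h1.and ((hU a).and (hU b))).exists
    -- equality symbol
    have h2 := hh S (0, 0, 0, true) a hSa b hSb
    have h3 : RelMap (L := Lc) (Rels.r (0, 0, 0, true) : Lc.Relations 2) ![h S a, h S b] := by
      show rel (0, 0, 0, true) (h S a) (h S b)
      simp [rel, hS1]
    have h4 := h2.1 h3
    -- in M the symbol is equality
    have h5 := transfer_all hM
      ((Relations.formula₂ (Rels.r (0, 0, 0, true) : Lc.Relations 2) (Term.var (0 : Fin 2))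
        (Term.var (1 : Fin 2))).imp (Term.equal (Term.var (0 : Fin 2)) (Term.var 1))) (by
          intro v
          rw [Formula.realize_imp, Formula.realize_rel₂, Formula.realize_equal]
          intro h
          have h' : rel (0, 0, 0, true) (v 0) (v 1) := h
          simpa [rel] using h') ![a, b]
    rw [Formula.realize_imp, Formula.realize_rel₂, Formula.realize_equal] at h5
    exact hne (h5 h4)
  refine ⟨N, inferInstance, ?_, ⟨⟨⟨e, hinj⟩, fun f => f.elim, ?_⟩⟩⟩
  · constructor
    intro φ hφ
    have : (Y.Pt ⊨ φ) := hφ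
    exact (Ultraproduct.sentence_realize (M := fun _ : Finset M => Y.Pt) (u := U) φ).2
      (Filter.Eventually.of_forall fun _ => this)
  · intro n r x
    cases r with
    | r s =>
      have h1 := hrel s (x 0) (x 1)
      have e1 : (![e (x 0), e (x 1)] : Fin 2 → N) = e ∘ x := by
        funext k; fin_cases k <;> rfl
      have e2 : (![x 0, x 1] : Fin 2 → M) = x := by
        funext k; fin_cases k <;> rfl
      rw [e1, e2] at h1
      exact h1

end Pool.Agent.PureEq
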